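import Mathlib
import Pool.Agent.T2H06.ZS.Cd
import Pool.Agent.T2H06.ZS.Lim

/-!
# Filtered subrings of a field which contain a transcendental element

`S N` are finite dimensional subspaces of a field `L` over `K`, increasing, `S M * S N ⊆ S (M + N)`,
`1 ∈ S 0`, `x ∈ S 2`, `x` transcendental. Then `dim (S N) / N` converges in `[0, ∞]`.
-/

set_option autoImplicit false

open Module Filter Topology Polynomial

namespace Pool.Agent.T2H64.ZL

open T2H06.ZS

variable {K L : Type*} [Field K] [Field L] [Algebra K L]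

/-- powers of a transcendental element are independent over the algebraic elements -/
theorem pow_indep_alg {x : L} (hx : Transcendental K x) (n : ℕ) (c : Fin n → L)
    (hc : ∀ i, IsAlgebraic K (c i)) (h : ∑ i, c i * x ^ (i : ℕ) = 0) : ∀ i, c i = 0 := by
  classical
  let E := algebraicClosure K L
  let e : Fin n → E := fun i => ⟨c i, (mem_algebraicClosure_iff).2 (hc i)⟩
  let P : E[X] := ∑ i : Fin n, Polynomial.monomial (i : ℕ) (e i)
  have hP : Polynomial.aeval x P = 0 := by
    rw [← h]
    simp only [P, map_sum, Polynomial.aeval_monomial]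
    rfl
  have h0 : P = 0 := by
    by_contra hne
    have h1 : IsAlgebraic E x := ⟨P, hne, hP⟩
    exact hx (h1.restrictScalars K)
  intro i
  have h2 : P.coeff (i : ℕ) = e i := by
    simp only [P, Polynomial.finsetSum_coeff, Polynomial.coeff_monomial]
    rw [Finset.sum_eq_single i]
    · simp
    · intro j _ hj
      rw [if_neg]
      exact fun h => hj (Fin.ext h)
    · intro h
      exact absurd (Finset.mem_univ i) h
  rw [h0, Polynomial.coeff_zero] at h2
  exact congrArg Subtype.val h2.symm

theorem alg_bound {x : L} (hx : Transcendental K x) {V W : Submodule K L}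
    [FiniteDimensional K V] [FiniteDimensional K W] (hV : AlgRatios K V) (n : ℕ)
    (hW : ∀ i < n, ∀ v ∈ V, v * x ^ i ∈ W) : n * finrank K V ≤ finrank K W := by
  let f : (Fin n → V) →ₗ[K] W :=
    { toFun := fun v => ⟨∑ i, (v i : L) * x ^ (i : ℕ), W.sum_mem fun i _ => hW i i.2 _ (v i).2⟩
      map_add' := fun a b => by
        apply Subtype.ext
        change ∑ i, (((a i : L) + (b i : L)) * x ^ (i : ℕ)) = ∑ i, (a i : L) * x ^ (i : ℕ) +
          ∑ i, (b i : L) * x ^ (i : ℕ)
        rw [← Finset.sum_add_distrib]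
        exact Finset.sum_congr rfl fun i _ => by ring
      map_smul' := fun c a => by
        apply Subtype.ext
        change ∑ i, ((c • (a i : L)) * x ^ (i : ℕ)) = c • ∑ i, (a i : L) * x ^ (i : ℕ)
        rw [Finset.smul_sum]
        exact Finset.sum_congr rfl fun i _ => by rw [smul_mul_assoc] }
  have hf : Function.Injective f := by
    rw [injective_iff_map_eq_zero]
    intro v hv
    have h1 : ∑ i, (v i : L) * x ^ (i : ℕ) = 0 := congrArg Subtype.val hv
    by_contra hne
    obtain ⟨j, hj⟩ := Function.ne_iff.1 hne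
    have hj0 : (v j : L) ≠ 0 := fun h => hj (Subtype.ext h)
    have h2 : ∑ i, ((v i : L) / v j) * x ^ (i : ℕ) = 0 := by
      have h3 : ∑ i, ((v i : L) / v j) * x ^ (i : ℕ) = (∑ i, (v i : L) * x ^ (i : ℕ)) / v j := by
        rw [Finset.sum_div]
        exact Finset.sum_congr rfl fun i _ => by ring
      rw [h3, h1, zero_div]
    have h3 := pow_indep_alg hx n (fun i => (v i : L) / v j) (fun i => hV _ (v i).2 _ (v j).2) h2 j
    simp only [div_self hj0] at h3
    exact one_ne_zero h3
  have h := LinearMap.finrank_le_finrank_of_injective hf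
  rw [Module.finrank_pi_fintype] at h
  simpa using h

theorem pow_indep {x : L} (hx : Transcendental K x) :
    LinearIndependent K (fun j : ℕ =>
      ((⟨x, IntermediateField.mem_adjoin_simple_self K x⟩ : IntermediateField.adjoin K {x}) ^ j)) := by
  have h := (transcendental_iff_injective).1 hx
  have h1 : LinearIndependent K (fun j : ℕ => x ^ j) := by
    have h2 := (Polynomial.basisMonomials K).linearIndependent
    have h3 := h2.map' (Polynomial.aeval x).toLinearMap (LinearMap.ker_eq_bot.2 h)
    have h4 : (fun j : ℕ => x ^ j) =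
        ⇑(Polynomial.aeval (R := K) x).toLinearMap ∘ ⇑(Polynomial.basisMonomials K) := by
      funext j
      simp [Polynomial.coe_basisMonomials, Polynomial.aeval_monomial]
    rw [h4]
    exact h3
  have h5 : LinearIndependent K ((IntermediateField.adjoin K {x}).val.toLinearMap ∘ (fun j : ℕ =>
      ((⟨x, IntermediateField.mem_adjoin_simple_self K x⟩ : IntermediateField.adjoin K {x}) ^ j))) := by
    convert h1 using 1
    funext j
    exact map_pow (IntermediateField.adjoin K {x}).val _ j
  exact LinearIndependent.of_comp _ h5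

theorem card_le' {ι : Type*} [Fintype ι] (V : Submodule K L) [FiniteDimensional K V] (v : ι → L)
    (hv : LinearIndependent K v) (hm : ∀ i, v i ∈ V) : Fintype.card ι ≤ finrank K V := by
  have h : LinearIndependent K (fun i => (⟨v i, hm i⟩ : V)) := LinearIndependent.of_comp V.subtype hv
  exact h.fintype_card_le_finrank

theorem lin_bound {x : L} (hx : Transcendental K x) {W : Submodule K L} [FiniteDimensional K W]
    {ι : Type*} [Fintype ι] (v : ι → L)
    (hv : LinearIndependent (IntermediateField.adjoin K {x}) v) (n : ℕ)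
    (hW : ∀ i, ∀ j < n, x ^ j * v i ∈ W) : n * Fintype.card ι ≤ finrank K W := by
  have h1 := linearIndependent_smul (pow_indep hx) hv
  have h2 := h1.comp (fun p : Fin n × ι => ((p.1 : ℕ), p.2)) (by
    rintro ⟨a, i⟩ ⟨b, j⟩ h
    simp only [Prod.mk.injEq] at h
    exact Prod.ext (Fin.ext h.1) h.2)
  have h3 := card_le' W _ h2 (fun p => hW p.2 p.1 p.1.2)
  simpa using h3

theorem growth_aux {s : ℕ → ℕ} (hmono : Monotone s) {a M : ℕ}
    (h : ∀ t, a * (t + 1) ≤ s (M + 2 * t)) (N : ℕ) : a * N ≤ 2 * s N + a * M := by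
  rcases le_total N M with hNM | hNM
  · exact (Nat.mul_le_mul_left a hNM).trans (Nat.le_add_left _ _)
  · have h1 := h ((N - M) / 2)
    have h2 : s (M + 2 * ((N - M) / 2)) ≤ s N := hmono (by omega)
    have h3 : N ≤ 2 * ((N - M) / 2 + 1) + M := by omega
    calc a * N ≤ a * (2 * ((N - M) / 2 + 1) + M) := Nat.mul_le_mul_left a h3
      _ = 2 * (a * ((N - M) / 2 + 1)) + a * M := by ring
      _ ≤ 2 * s N + a * M := by omega

theorem le_two_mul_of {s : ℕ → ℕ} {Lm : ENNReal}
    (hL : Tendsto (fun N : ℕ => (s N : ENNReal) / N) atTop (𝓝 Lm)) (hmono : Monotone s)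
    {a M : ℕ} (h : ∀ t, a * (t + 1) ≤ s (M + 2 * t)) : (a : ENNReal) ≤ 2 * Lm := by
  have h1 : Tendsto (fun N : ℕ => 2 * ((s N : ENNReal) / N) + ((a * M : ℕ) : ENNReal) / N) atTop
      (𝓝 (2 * Lm + 0)) := by
    refine Tendsto.add (ENNReal.Tendsto.const_mul hL (Or.inr (by norm_num))) ?_
    exact ENNReal.Tendsto.const_div ENNReal.tendsto_nat_nhds_top
      (Or.inr (ENNReal.natCast_ne_top _)) |>.trans (by simp)
  rw [add_zero] at h1
  refine ge_of_tendsto h1 ?_
  filter_upwards [eventually_ge_atTop 1] with N hN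
  have hN0 : (N : ENNReal) ≠ 0 := by exact_mod_cast (by omega : N ≠ 0)
  have hNt : (N : ENNReal) ≠ ⊤ := ENNReal.natCast_ne_top N
  have h2 : ((a * N : ℕ) : ENNReal) ≤ ((2 * s N + a * M : ℕ) : ENNReal) := by
    exact_mod_cast growth_aux hmono h N
  have h3 : (a : ENNReal) = ((a * N : ℕ) : ENNReal) / N := by
    push_cast
    rw [mul_div_assoc, ENNReal.div_self hN0 hNt, mul_one]
  rw [h3]
  calc ((a * N : ℕ) : ENNReal) / N ≤ ((2 * s N + a * M : ℕ) : ENNReal) / N := by gcongr
    _ = 2 * ((s N : ENNReal) / N) + ((a * M : ℕ) : ENNReal) / N := by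
        push_cast
        rw [ENNReal.add_div, mul_div_assoc]

/-- The filtrations considered. -/
structure Filt (x : L) (S : ℕ → Submodule K L) : Prop where
  tr : Transcendental K x
  fin : ∀ n, FiniteDimensional K (S n)
  mono : Monotone S
  mul : ∀ M N, S M * S N ≤ S (M + N)
  one : (1 : L) ∈ S 0
  mem : x ∈ S 2

theorem Filt.pow {x : L} {S : ℕ → Submodule K L} (h : Filt x S) (j : ℕ) : x ^ j ∈ S (2 * j) := by
  induction j with
  | zero => simpa using h.one
  | succ j ih =>
    have h1 := h.mul (2 * j) 2 (Submodule.mul_mem_mul ih h.mem)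
    rw [pow_succ]
    exact h1

theorem Filt.pow' {x : L} {S : ℕ → Submodule K L} (h : Filt x S) {z : L} {w : ℕ} (hz : z ∈ S w)
    (j : ℕ) : z ^ j ∈ S (j * w) := by
  induction j with
  | zero => simpa using h.one
  | succ j ih =>
    have h1 := h.mul (j * w) w (Submodule.mul_mem_mul ih hz)
    rw [pow_succ, Nat.succ_mul]
    exact h1

theorem Filt.alg {x : L} {S : ℕ → Submodule K L} (h : Filt x S) {M : ℕ} {V : Submodule K L}
    (hV : V ≤ S M) (hr : AlgRatios K V) (t : ℕ) :
    finrank K V * (t + 1) ≤ finrank K (S (M + 2 * t)) := by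
  have := h.fin M
  have := h.fin (M + 2 * t)
  have : FiniteDimensional K V := Submodule.finiteDimensional_of_le hV
  rw [mul_comm]
  refine alg_bound h.tr hr (t + 1) fun i hi v hv => ?_
  exact h.mono (by omega) (h.mul M (2 * i) (Submodule.mul_mem_mul (hV hv) (h.pow i)))

theorem Filt.finrank_mono {x : L} {S : ℕ → Submodule K L} (h : Filt x S) :
    Monotone fun N => finrank K (S N) := by
  intro a b hab
  have := h.fin b
  exact Submodule.finrank_mono (h.mono hab)

theorem Filt.limit {x : L} {S : ℕ → Submodule K L} (h : Filt x S) :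
    ∃ Lm : ENNReal, Tendsto (fun N : ℕ => (finrank K (S N) : ENNReal) / N) atTop (𝓝 Lm) ∧
      ∀ M, ∀ V ≤ S M, AlgRatios K V → (finrank K V : ENNReal) ≤ 2 * Lm := by
  by_cases hb : ∃ b, ∀ M, ∀ V ≤ S M, AlgRatios K V → finrank K V ≤ b
  · obtain ⟨b, hb⟩ := hb
    have hne : ∀ M, S M ≠ ⊥ := by
      intro M h0
      have h1 := h.mono (Nat.zero_le M) h.one
      rw [h0] at h1
      exact one_ne_zero ((Submodule.mem_bot K).1 h1)
    have hlim := limit_exists (fun N => finrank K (S N)) b
      (fun M N _ => h.finrank_mono (Nat.le_add_right M N)) (fun M N _ _ => by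
        have := h.fin M
        have := h.fin N
        have := h.fin (M + N)
        have h1 := cauchy b _ (S M) (S N) (h.fin M) (h.fin N) rfl (hne M) (hne N)
          (fun V hV hr => hb M V hV hr)
        have h2 : finrank K (S M * S N : Submodule K L) ≤ finrank K (S (M + N)) :=
          Submodule.finrank_mono (h.mul M N)
        change finrank K (S M) + finrank K (S N) ≤ finrank K (S (M + N)) + b
        omega)
    exact ⟨_, hlim, fun M V hV hr => le_two_mul_of hlim h.finrank_mono (h.alg hV hr)⟩
  · push Not at hb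
    refine ⟨⊤, ?_, fun M V hV hr => ?_⟩
    · rw [ENNReal.tendsto_nhds_top_iff_nat]
      intro n
      obtain ⟨M, V, hV, hr, hlt⟩ := hb (2 * n + 2)
      filter_upwards [eventually_ge_atTop ((2 * n + 2) * M + 1)] with N hN
      have h1 := growth_aux h.finrank_mono (a := 2 * n + 2) (M := M) (fun t =>
        (Nat.mul_le_mul_right _ hlt.le).trans (h.alg hV hr t)) N
      have h2 : n * N < finrank K (S N) := by
        have h3 : (2 * n + 2) * N = 2 * (n * N) + 2 * N := by ring
        rw [h3] at h1
        generalize (2 * n + 2) * M = A at *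
        generalize n * N = B at *
        omega
      have hN0 : N ≠ 0 := by
        generalize (2 * n + 2) * M = A at *
        omega
      rw [ENNReal.lt_div_iff_mul_lt (Or.inl (by exact_mod_cast hN0))
        (Or.inl (ENNReal.natCast_ne_top N))]
      exact_mod_cast h2
    · simp

theorem Filt.indep_bound {x : L} {S : ℕ → Submodule K L} (h : Filt x S) {Lm : ENNReal}
    (hL : Tendsto (fun N : ℕ => (finrank K (S N) : ENNReal) / N) atTop (𝓝 Lm)) (s : Finset L)
    (hs : ∀ z ∈ s, ∃ m, z ∈ S m)
    (hli : LinearIndependent (IntermediateField.adjoin K {x}) (fun z : s => (z : L))) :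
    (s.card : ENNReal) ≤ 2 * Lm := by
  classical
  choose! m hm using hs
  have hM : ∀ z ∈ s, z ∈ S (s.sup m) := fun z hz => h.mono (Finset.le_sup hz) (hm z hz)
  refine le_two_mul_of hL h.finrank_mono (M := s.sup m) fun t => ?_
  have := h.fin (s.sup m + 2 * t)
  have h1 := lin_bound h.tr (W := S (s.sup m + 2 * t)) _ hli (t + 1) (fun z j hj => by
    have h2 := h.mul (2 * j) (s.sup m) (Submodule.mul_mem_mul (h.pow j) (hM z z.2))
    exact h.mono (by omega) h2)
  rw [Fintype.card_coe, mul_comm] at h1
  exact h1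

theorem Filt.degree {x : L} {S : ℕ → Submodule K L} (h : Filt x S) {Lm : ENNReal}
    (hL : Tendsto (fun N : ℕ => (finrank K (S N) : ENNReal) / N) atTop (𝓝 Lm)) (hfin : Lm ≠ ⊤)
    (T : Submonoid L) (hT : ∀ z ∈ T, ∃ m, z ∈ S m) :
    FiniteDimensional (IntermediateField.adjoin K {x})
      (IntermediateField.adjoin (IntermediateField.adjoin K {x}) (T : Set L)) ∧
    (finrank (IntermediateField.adjoin K {x})
      (IntermediateField.adjoin (IntermediateField.adjoin K {x}) (T : Set L)) : ENNReal) ≤ 2 * Lm := by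
  classical
  obtain ⟨b, hbT, hspan, hli⟩ := exists_linearIndependent (IntermediateField.adjoin K {x}) (T : Set L)
  have hcard : ∀ s : Finset L, (s : Set L) ⊆ b → (s.card : ENNReal) ≤ 2 * Lm := by
    intro s hs
    refine h.indep_bound hL s (fun z hz => hT z (hbT (hs hz))) ?_
    exact hli.comp (fun z : s => (⟨z, hs z.2⟩ : b)) (fun a c hac => Subtype.ext (congrArg (fun z : b => (z : L)) hac))
  have h2L : 2 * Lm ≠ ⊤ := ENNReal.mul_ne_top (by norm_num) hfin
  have hbfin : b.Finite := by
    by_contra hinf
    obtain ⟨s, hs, hsc⟩ := Set.Infinite.exists_subset_card_eq hinf (⌊(2 * Lm).toReal⌋₊ + 1)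
    have h1 := hcard s hs
    have h2 := Nat.lt_floor_add_one (2 * Lm).toReal
    have h3 := ENNReal.toReal_mono h2L h1
    rw [hsc, ENNReal.toReal_natCast, Nat.cast_add, Nat.cast_one] at h3
    linarith
  have hW : (IntermediateField.adjoin (IntermediateField.adjoin K {x}) (T : Set L)).toSubalgebra.toSubmodule
      = Submodule.span (IntermediateField.adjoin K {x}) b := by
    have h1 : (Algebra.adjoin (IntermediateField.adjoin K {x}) (T : Set L)).toSubmodule =
        Submodule.span (IntermediateField.adjoin K {x}) b := by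
      rw [Algebra.adjoin_eq_span, Submonoid.closure_eq, hspan]
    have h2 : (Submodule.span (IntermediateField.adjoin K {x}) b).FG := ⟨hbfin.toFinset, by simp⟩
    have h3 : ∀ z ∈ (T : Set L), IsAlgebraic (IntermediateField.adjoin K {x}) z := by
      intro z hz
      exact (IsIntegral.of_mem_of_fg (Algebra.adjoin (IntermediateField.adjoin K {x}) (T : Set L))
        (by rw [h1]; exact h2) z (Algebra.subset_adjoin hz)).isAlgebraic
    rw [IntermediateField.adjoin_toSubalgebra_of_isAlgebraic h3, h1]
  have hspanfin : FiniteDimensional (IntermediateField.adjoin K {x})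
      (Submodule.span (IntermediateField.adjoin K {x}) b) := FiniteDimensional.span_of_finite _ hbfin
  have hrank : finrank (IntermediateField.adjoin K {x})
      (Submodule.span (IntermediateField.adjoin K {x}) b) = hbfin.toFinset.card := by
    have := hbfin.fintype
    rw [finrank_span_set_eq_card hli]
    congr 1
    ext z
    simp
  have e : (IntermediateField.adjoin (IntermediateField.adjoin K {x}) (T : Set L)) ≃ₗ[IntermediateField.adjoin K {x}]
      (Submodule.span (IntermediateField.adjoin K {x}) b) := LinearEquiv.ofEq _ _ hW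
  refine ⟨e.symm.finiteDimensional, ?_⟩
  rw [e.finrank_eq, hrank]
  exact hcard _ (by simp)

theorem Filt.quant {x : L} {S : ℕ → Submodule K L} (h : Filt x S) {z : L} {w d N : ℕ}
    (hz : z ∈ S w) (hd : d * w ≤ N)
    (hlt : finrank K (S N) < ∑ i ∈ Finset.range (d + 1), ((N - i * w) / 2 + 1)) :
    ∃ P : (IntermediateField.adjoin K {x})[X], P ≠ 0 ∧ P.natDegree ≤ d ∧ aeval z P = 0 := by
  classical
  by_contra hcon
  push Not at hcon
  have h1 : LinearIndependent (IntermediateField.adjoin K {x}) (fun i : Fin (d + 1) => z ^ (i : ℕ)) := by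
    rw [Fintype.linearIndependent_iff]
    intro g hg
    by_contra hne
    push Not at hne
    obtain ⟨i, hi⟩ := hne
    set P : (IntermediateField.adjoin K {x})[X] :=
      ∑ i : Fin (d + 1), Polynomial.monomial (i : ℕ) (g i) with hP
    have hc : P.coeff (i : ℕ) = g i := by
      simp only [P, Polynomial.finsetSum_coeff, Polynomial.coeff_monomial]
      rw [Finset.sum_eq_single i]
      · simp
      · intro j _ hj
        rw [if_neg]
        exact fun h => hj (Fin.ext h)
      · intro h
        exact absurd (Finset.mem_univ i) h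
    refine hcon P ?_ ?_ ?_
    · intro h0
      rw [h0, Polynomial.coeff_zero] at hc
      exact hi hc.symm
    · refine (Polynomial.natDegree_sum_le _ _).trans ?_
      rw [Finset.fold_max_le]
      refine ⟨Nat.zero_le _, fun j _ => ?_⟩
      exact (Polynomial.natDegree_monomial_le _).trans (by have := j.2; omega)
    · rw [hP, map_sum, ← hg]
      refine Finset.sum_congr rfl fun j _ => ?_
      rw [Polynomial.aeval_monomial, Algebra.smul_def]
  have h2 := linearIndependent_smul (pow_indep h.tr) h1
  have h3 := h2.comp (fun p : (Σ i : Fin (d + 1), Fin ((N - (i : ℕ) * w) / 2 + 1)) =>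
      ((p.2 : ℕ), p.1)) (by
    rintro ⟨i, a⟩ ⟨j, b⟩ hab
    simp only [Prod.mk.injEq] at hab
    obtain ⟨h4, h5⟩ := hab
    subst h5
    simp only [Sigma.mk.injEq, heq_eq_eq, true_and]
    exact Fin.ext h4)
  have := h.fin N
  have h4 := card_le' (S N) _ h3 (fun p => by
    have h5 := h.mul (2 * (p.2 : ℕ)) ((p.1 : ℕ) * w) (Submodule.mul_mem_mul (h.pow p.2) (h.pow' hz p.1))
    have h6 : (p.1 : ℕ) * w ≤ d * w := Nat.mul_le_mul_right w (by have := p.1.2; omega)
    have h7 := p.2.2
    exact h.mono (by omega) h5)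
  rw [Fintype.card_sigma] at h4
  simp only [Fintype.card_fin] at h4
  rw [Fin.sum_univ_eq_sum_range (fun i => (N - i * w) / 2 + 1) (d + 1)] at h4
  omega

end Pool.Agent.T2H64.ZL
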