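import Pool.Agent.T2H64.ZL.Core
import Pool.Agent.T2H35.MZ.Rev

/-!
# The sums of the spaces of multiple zeta values
-/

set_option autoImplicit false

open Module Filter Topology Polynomial
open scoped Pointwise

namespace Pool.Agent.T2H64.ZL

open Pool.Agent.H447R2.MZ hiding Direct Zs_one pi_pow_mem
open Pool.Agent.Y129.MZ Pool.Agent.Y123.MZ
open Pool.Agent.T2H35.MZ T2H06.ZS

/-- The sum of the spaces with weights in `A`. -/
noncomputable abbrev SA (A : Finset ℕ) : Submodule ℚ ℝ := ⨆ n ∈ A, Zs n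

theorem SA_mul (A B : Finset ℕ) : SA A * SA B ≤ SA (A + B) := by
  have h : ∀ a ∈ A, ∀ b ∈ B, Zs a * Zs b ≤ SA (A + B) := fun a ha b hb =>
    (Submodule.mul_le.2 fun x hx y hy => mul_mem a b x y hx hy).trans
      (le_iSup₂_of_le (a + b) (Finset.add_mem_add ha hb) le_rfl)
  simp only [SA, Submodule.iSup_mul, Submodule.mul_iSup, iSup_le_iff]
  intro i hi j hj
  first
  | exact h i hi j hj
  | exact h j hj i hi

theorem SA_le {A : Finset ℕ} {N : ℕ} (h : ∀ a ∈ A, a ≤ N) : SA A ≤ S N :=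
  iSup₂_le fun a ha => le_iSup₂_of_le a (Finset.mem_range.2 (by have := h a ha; omega)) le_rfl

instance finite_SA (A : Finset ℕ) : FiniteDimensional ℚ (SA A) :=
  Submodule.finiteDimensional_of_le (SA_le (N := A.sup id) fun _ ha => Finset.le_sup (f := id) ha)

theorem SA_ne_bot {A : Finset ℕ} (h : ∃ a ∈ A, a ≠ 1) : SA A ≠ ⊥ := by
  obtain ⟨a, ha, ha1⟩ := h
  intro h0
  have h1 : Zs a ≤ SA A := le_iSup₂_of_le a ha le_rfl
  rw [h0, le_bot_iff] at h1
  rcases Nat.eq_zero_or_pos a with rfl | hp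
  · have h2 := one_mem
    rw [h1] at h2
    exact one_ne_zero ((Submodule.mem_bot ℚ).1 h2)
  · obtain ⟨t, ht, ht0⟩ := Pool.Agent.Y123.MZ.exists_ne (m := a) (by omega)
    rw [h1] at ht
    exact ht0 ((Submodule.mem_bot ℚ).1 ht)

theorem Zs_le_S (n : ℕ) : Zs n ≤ S n := le_iSup₂_of_le n (Finset.mem_range.2 (by omega)) le_rfl

theorem filt : Filt (K := ℚ) (Real.pi ^ 2) S where
  tr := Pool.Agent.Results.MP_2000e9_nt.SumDimension.pi_sq_tr
  fin := finite_S
  mono := by
    intro a b hab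
    exact iSup₂_le fun n hn => le_iSup₂_of_le n
      (Finset.mem_range.2 (by have := Finset.mem_range.1 hn; omega)) le_rfl
  mul := by
    intro M N
    refine (SA_mul (Finset.range (M + 1)) (Finset.range (N + 1))).trans (SA_le fun a ha => ?_)
    obtain ⟨b, hb, c, hc, rfl⟩ := Finset.mem_add.1 ha
    rw [Finset.mem_range] at hb hc
    omega
  one := Zs_le_S 0 one_mem
  mem := Zs_le_S 2 pi_sq_mem

/-- The homogeneous elements. -/
def Hom : Submonoid ℝ where
  carrier := {z | ∃ w, z ∈ Zs w}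
  mul_mem' := by
    rintro a b ⟨v, ha⟩ ⟨w, hb⟩
    exact ⟨v + w, mul_mem v w a b ha hb⟩
  one_mem' := ⟨0, one_mem⟩

theorem sumset {L : ENNReal} (hL : ∀ M, ∀ V ≤ S M, AlgRatios ℚ V → (finrank ℚ V : ENNReal) ≤ 2 * L)
    {A B : Finset ℕ} (hA : ∃ a ∈ A, a ≠ 1) (hB : ∃ b ∈ B, b ≠ 1) :
    (finrank ℚ (SA A) : ENNReal) + finrank ℚ (SA B) ≤ finrank ℚ (SA (A + B)) + 2 * L := by
  by_cases hT : 2 * L = ⊤
  · rw [hT]
    simp
  · set h := ⌊(2 * L).toReal⌋₊ with hh
    have h1 : ∀ V ≤ SA A, AlgRatios ℚ V → finrank ℚ V ≤ h := by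
      intro V hV hr
      have h2 := hL (A.sup id) V (hV.trans (SA_le fun _ ha => Finset.le_sup (f := id) ha)) hr
      have h3 := ENNReal.toReal_mono hT h2
      rw [ENNReal.toReal_natCast] at h3
      exact Nat.le_floor h3
    have h2 := cauchy h _ (SA A) (SA B) inferInstance inferInstance rfl (SA_ne_bot hA) (SA_ne_bot hB) h1
    have h3 : finrank ℚ (SA A * SA B : Submodule ℚ ℝ) ≤ finrank ℚ (SA (A + B)) :=
      Submodule.finrank_mono (SA_mul A B)
    have h4 : (h : ENNReal) ≤ 2 * L := by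
      rw [← ENNReal.ofReal_toReal hT, ← ENNReal.ofReal_natCast]
      exact ENNReal.ofReal_le_ofReal (Nat.floor_le ENNReal.toReal_nonneg)
    have h5 : ((finrank ℚ (SA A) + finrank ℚ (SA B) : ℕ) : ENNReal) ≤
        ((finrank ℚ (SA (A + B)) + h : ℕ) : ENNReal) := by
      exact_mod_cast (by omega)
    push_cast at h5
    exact h5.trans (by gcongr)

theorem two_thirds {L : ENNReal}
    (hL : Tendsto (fun N : ℕ => (finrank ℚ (S N) : ENNReal) / N) atTop (𝓝 L)) : 2 / 3 ≤ L := by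
  refine ge_of_tendsto hL ?_
  filter_upwards [eventually_ge_atTop 1] with N hN
  have h1 := S_ge N
  have h2 : N * 2 ≤ finrank ℚ (S N) * 3 := by omega
  rw [ENNReal.le_div_iff_mul_le (Or.inl (by exact_mod_cast (by omega : N ≠ 0)))
    (Or.inl (ENNReal.natCast_ne_top N)), mul_comm, ← mul_div_assoc,
    ENNReal.div_le_iff (by norm_num) (by norm_num)]
  exact_mod_cast h2

theorem sum_ge {w N : ℕ} (hw : 0 < w) :
    N ^ 2 ≤ 4 * w * ∑ i ∈ Finset.range (N / w + 1), ((N - i * w) / 2 + 1) := by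
  set d := N / w with hd
  have h1 : d * w ≤ N := Nat.div_mul_le_self N w
  have h2 : N < w * (d + 1) := Nat.lt_mul_div_succ N hw
  have key : ∀ k : ℕ, k ≤ d + 1 → (2 * k * (N + 1) - w * k * (k - 1) : ℤ) ≤
      4 * ((∑ i ∈ Finset.range k, ((N - i * w) / 2 + 1) : ℕ) : ℤ) := by
    intro k
    induction k with
    | zero => intro _; simp
    | succ k ih =>
      intro hk
      have h3 := ih (by omega)
      have h4 : k * w ≤ N := (Nat.mul_le_mul_right w (by omega)).trans h1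
      rw [Finset.sum_range_succ]
      have h5 : ((N : ℤ) - k * w + 1) ≤ 2 * (((N - k * w) / 2 + 1 : ℕ) : ℤ) := by
        have h6 : N - k * w + 1 ≤ 2 * ((N - k * w) / 2 + 1) := by omega
        have h7 : ((N - k * w : ℕ) : ℤ) = (N : ℤ) - k * w := by
          rw [Nat.cast_sub h4]
          push_cast
          ring
        rw [← h7]
        exact_mod_cast h6
      rw [Nat.cast_add ((∑ i ∈ Finset.range k, ((N - i * w) / 2 + 1) : ℕ))]
      push_cast at h3 h5 ⊢
      nlinarith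
  have h3 := key (d + 1) le_rfl
  have h4 : (N : ℤ) < w * (d + 1) := by exact_mod_cast h2
  have h5 : (d : ℤ) * w ≤ N := by exact_mod_cast h1
  have h6 : ((N : ℤ)) ^ 2 ≤ 4 * w * ((∑ i ∈ Finset.range (d + 1), ((N - i * w) / 2 + 1) : ℕ) : ℤ) := by
    have hw' : (0 : ℤ) < w := by exact_mod_cast hw
    have hN0 : (0 : ℤ) ≤ N := by positivity
    have hd0 : (0 : ℤ) ≤ d := by positivity
    have h7 : ((d : ℤ) + 1) * (N + 2) ≤
        4 * ((∑ i ∈ Finset.range (d + 1), ((N - i * w) / 2 + 1) : ℕ) : ℤ) := by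
      refine le_trans ?_ h3
      push_cast
      nlinarith
    have h8 : (N : ℤ) * (N + 2) ≤ w * (((d : ℤ) + 1) * (N + 2)) := by nlinarith
    have h9 : (w : ℤ) * (((d : ℤ) + 1) * (N + 2)) ≤
        w * (4 * ((∑ i ∈ Finset.range (d + 1), ((N - i * w) / 2 + 1) : ℕ) : ℤ)) :=
      mul_le_mul_of_nonneg_left h7 hw'.le
    nlinarith
  exact_mod_cast h6

/-- a space of weight `w` and the dimension of the sum -/
theorem dichotomy {w N : ℕ} {z : ℝ} (hz : z ∈ Zs w) (hw : 0 < w)
    (hlt : 4 * w * finrank ℚ (S N) < N ^ 2) :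
    ∃ P : (IntermediateField.adjoin ℚ {Real.pi ^ 2})[X], P ≠ 0 ∧ P.natDegree ≤ N / w ∧
      aeval z P = 0 := by
  refine filt.quant (Zs_le_S w hz) (Nat.div_mul_le_self N w) ?_
  by_contra hcon
  have h1 := sum_ge (N := N) hw
  have h2 := Nat.mul_le_mul_left (4 * w) (not_lt.1 hcon)
  omega

theorem rational_of_lt {L : ENNReal}
    (hL : Tendsto (fun N : ℕ => (finrank ℚ (S N) : ENNReal) / N) atTop (𝓝 L)) (h1 : L < 1) {w : ℕ}
    {z : ℝ} (hz : z ∈ Zs w) : z ∈ IntermediateField.adjoin ℚ {Real.pi ^ 2} := by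
  obtain ⟨hf, hle⟩ := filt.degree hL h1.ne_top Hom (fun z hz => by
    obtain ⟨w, hw⟩ := hz
    exact ⟨w, Zs_le_S w hw⟩)
  set F := IntermediateField.adjoin (IntermediateField.adjoin ℚ {Real.pi ^ 2}) (Hom : Set ℝ) with hF
  have h2 : (finrank (IntermediateField.adjoin ℚ {Real.pi ^ 2}) F : ENNReal) < 2 := by
    refine lt_of_le_of_lt hle ?_
    calc 2 * L < 2 * 1 := (ENNReal.mul_lt_mul_iff_right (by norm_num) (by norm_num)).2 h1
      _ = 2 := mul_one 2
  have h3 : finrank (IntermediateField.adjoin ℚ {Real.pi ^ 2}) F < 2 := by exact_mod_cast h2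
  have h4 : 0 < finrank (IntermediateField.adjoin ℚ {Real.pi ^ 2}) F := finrank_pos
  have h5 : F = ⊥ := IntermediateField.finrank_eq_one_iff.1 (by omega)
  have h6 : z ∈ F := IntermediateField.subset_adjoin _ _ ⟨w, hz⟩
  rw [h5, IntermediateField.mem_bot] at h6
  obtain ⟨y, rfl⟩ := h6
  exact y.2

theorem upper {s : ℕ → ℕ} {L : ENNReal}
    (hL : Tendsto (fun N : ℕ => (s N : ENNReal) / N) atTop (𝓝 L))
    (hadd : ∀ a b, (s a : ENNReal) + s b ≤ s (a + b) + 2 * L) (N : ℕ) :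
    (s N : ENNReal) ≤ (N + 2) * L := by
  have hk : ∀ k : ℕ, ((k + 1 : ℕ) : ENNReal) * s N ≤ s ((k + 1) * N) + k * (2 * L) := by
    intro k
    induction k with
    | zero => simp
    | succ k ih =>
      have h1 := hadd ((k + 1) * N) N
      have h2 : (k + 1) * N + N = (k + 1 + 1) * N := by ring
      rw [h2] at h1
      calc ((k + 1 + 1 : ℕ) : ENNReal) * s N = ((k + 1 : ℕ) : ENNReal) * s N + s N := by
            push_cast
            ring
        _ ≤ (s ((k + 1) * N) + k * (2 * L)) + s N := by gcongr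
        _ = (s ((k + 1) * N) + s N) + k * (2 * L) := by ring
        _ ≤ (s ((k + 1 + 1) * N) + 2 * L) + k * (2 * L) := by gcongr
        _ = s ((k + 1 + 1) * N) + ((k + 1 : ℕ) : ENNReal) * (2 * L) := by
            push_cast
            ring
  have hb : ∀ k : ℕ, (s N : ENNReal) ≤ (s ((k + 1) * N) : ENNReal) / ((k + 1 : ℕ) : ENNReal) + 2 * L := by
    intro k
    have h0 : ((k + 1 : ℕ) : ENNReal) ≠ 0 := by exact_mod_cast (Nat.succ_ne_zero k)
    have ht : ((k + 1 : ℕ) : ENNReal) ≠ ⊤ := ENNReal.natCast_ne_top _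
    have h1 : (s N : ENNReal) = (((k + 1 : ℕ) : ENNReal) * s N) / ((k + 1 : ℕ) : ENNReal) := by
      rw [mul_comm, mul_div_assoc, ENNReal.div_self h0 ht, mul_one]
    have h2 : ((k + 1 : ℕ) : ENNReal) * (2 * L) / ((k + 1 : ℕ) : ENNReal) = 2 * L := by
      rw [mul_comm, mul_div_assoc, ENNReal.div_self h0 ht, mul_one]
    calc (s N : ENNReal) = (((k + 1 : ℕ) : ENNReal) * s N) / ((k + 1 : ℕ) : ENNReal) := h1
      _ ≤ (s ((k + 1) * N) + ((k + 1 : ℕ) : ENNReal) * (2 * L)) / ((k + 1 : ℕ) : ENNReal) := by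
          gcongr
          refine (hk k).trans ?_
          gcongr
          omega
      _ = (s ((k + 1) * N) : ENNReal) / ((k + 1 : ℕ) : ENNReal) + 2 * L := by
          rw [ENNReal.add_div, h2]
  have hlim : Tendsto (fun k : ℕ => (s ((k + 1) * N) : ENNReal) / ((k + 1 : ℕ) : ENNReal)) atTop
      (𝓝 (N * L)) := by
    rcases Nat.eq_zero_or_pos N with rfl | hN
    · simp only [mul_zero, Nat.cast_zero, zero_mul]
      have h1 : Tendsto (fun k : ℕ => (s 0 : ENNReal) / (k : ENNReal)) atTop (𝓝 0) :=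
        ENNReal.Tendsto.const_div ENNReal.tendsto_nat_nhds_top
          (Or.inr (ENNReal.natCast_ne_top _)) |>.trans (by simp)
      exact h1.comp (tendsto_add_atTop_nat 1)
    · have h1 : Tendsto (fun k : ℕ => (k + 1) * N) atTop atTop := by
        refine tendsto_atTop_mono (fun k => ?_) (tendsto_add_atTop_nat 1)
        exact Nat.le_mul_of_pos_right _ hN
      have h2 := ENNReal.Tendsto.const_mul (a := (N : ENNReal)) (hL.comp h1)
        (Or.inr (ENNReal.natCast_ne_top N))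
      refine h2.congr fun k => ?_
      simp only [Function.comp_apply]
      rw [Nat.cast_mul, ← mul_div_assoc, mul_comm (N : ENNReal) (s ((k + 1) * N) : ENNReal),
        ENNReal.mul_div_mul_right _ _ (by exact_mod_cast hN.ne') (ENNReal.natCast_ne_top N)]
  have h3 := hlim.add_const (2 * L)
  have h4 : (N : ENNReal) * L + 2 * L = (N + 2) * L := by ring
  rw [h4] at h3
  exact ge_of_tendsto' h3 hb

theorem add_le {L : ENNReal} (hL : ∀ M, ∀ V ≤ S M, AlgRatios ℚ V → (finrank ℚ V : ENNReal) ≤ 2 * L)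
    (a b : ℕ) : (finrank ℚ (S a) : ENNReal) + finrank ℚ (S b) ≤ finrank ℚ (S (a + b)) + 2 * L := by
  have h1 := sumset hL (A := Finset.range (a + 1)) (B := Finset.range (b + 1))
    ⟨0, by simp, by norm_num⟩ ⟨0, by simp, by norm_num⟩
  have h2 : finrank ℚ (SA (Finset.range (a + 1) + Finset.range (b + 1))) ≤ finrank ℚ (S (a + b)) := by
    refine Submodule.finrank_mono (SA_le fun x hx => ?_)
    obtain ⟨y, hy, z, hz, rfl⟩ := Finset.mem_add.1 hx
    rw [Finset.mem_range] at hy hz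
    omega
  refine h1.trans ?_
  gcongr

end Pool.Agent.T2H64.ZL
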