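import Pool.Agent.T2H35.MZ.Rev

/-!
# All relations between multiple zeta values of different weights come from one relation
-/

set_option autoImplicit false

open Polynomial

namespace Pool.Agent.T2H64.ZL.One

open Pool.Agent.H447R2.MZ hiding Direct Zs_one pi_pow_mem
open Pool.Agent.Y129.MZ Pool.Agent.Y123.MZ

/-- `ζ(3) / π²` -/
noncomputable def tau : ℝ := z3 / Real.pi ^ 2

theorem tau_ne : tau ≠ 0 := div_ne_zero z3_pos.ne' (pow_ne_zero _ Real.pi_ne_zero)

/-- Formal sums of elements of the spaces. -/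
def Formal (G : ℝ[X]) : Prop := ∀ w, G.coeff w ∈ Zs w

/-- the coefficient of `X ^ n` is multiplied by `tau ^ n` -/
noncomputable def phi : ratioField[X] →+* ℝ[X] :=
  (Polynomial.compRingHom (C tau * X)).comp (Polynomial.mapRingHom ratioField.subtype)

theorem phi_coeff (P : ratioField[X]) (n : ℕ) : (phi P).coeff n = (P.coeff n : ℝ) * tau ^ n := by
  change ((P.map ratioField.subtype).comp (C tau * X)).coeff n = _
  rw [comp_C_mul_X_coeff, coeff_map]
  rfl

theorem phi_eval (P : ratioField[X]) : (phi P).eval 1 = aeval tau P := by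
  change ((P.map ratioField.subtype).comp (C tau * X)).eval 1 = _
  rw [eval_comp, eval_mul, eval_C, eval_X, mul_one, eval_map, aeval_def]
  rfl

theorem div_tau_mem {w : ℕ} {z : ℝ} (hz : z ∈ Zs w) : z / tau ^ w ∈ ratioField := by
  have h1 : z * (Real.pi ^ 2) ^ w ∈ Zs (w + w * 2) := by
    have h2 := pow_mem 2 _ pi_sq_mem w
    rw [mul_comm 2 w] at h2
    exact mul_mem _ _ _ _ hz h2
  have h3 : z3 ^ w ∈ Zs (w + w * 2) := by
    have h2 := pow_mem 3 _ z3_mem w
    have e : 3 * w = w + w * 2 := by ring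
    rw [e] at h2
    exact h2
  have h4 := div_mem_ratio h1 h3
  have hpi : (Real.pi ^ 2) ^ w ≠ 0 := pow_ne_zero _ (pow_ne_zero _ Real.pi_ne_zero)
  have hz3 : z3 ^ w ≠ 0 := pow_ne_zero _ z3_pos.ne'
  have e : z / tau ^ w = z * (Real.pi ^ 2) ^ w / z3 ^ w := by
    rw [tau, div_pow]
    field_simp
  rw [e]
  exact h4

theorem exists_phi {G : ℝ[X]} (hG : Formal G) : ∃ P : ratioField[X], phi P = G := by
  classical
  refine ⟨∑ w ∈ Finset.range (G.natDegree + 1), monomial w
    (⟨G.coeff w / tau ^ w, div_tau_mem (hG w)⟩ : ratioField), ?_⟩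
  ext n
  rw [phi_coeff, finsetSum_coeff]
  simp only [coeff_monomial]
  rw [Finset.sum_ite_eq']
  split_ifs with h
  · change G.coeff n / tau ^ n * tau ^ n = _
    rw [div_mul_cancel₀ _ (pow_ne_zero _ tau_ne)]
  · rw [Finset.mem_range, not_lt] at h
    rw [coeff_eq_zero_of_natDegree_lt (by omega)]
    simp

theorem tau_mem {i e : ℕ} (h : i ≤ e) : (Real.pi ^ 2) ^ e * tau ^ i ∈ Zs (2 * e + i) := by
  have h1 := mul_mem _ _ _ _ (pow_mem 3 _ z3_mem i) (pow_mem 2 _ pi_sq_mem (e - i))
  have e1 : 3 * i + 2 * (e - i) = 2 * e + i := by omega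
  rw [e1] at h1
  have hpi : (Real.pi ^ 2) ^ i ≠ 0 := pow_ne_zero _ (pow_ne_zero _ Real.pi_ne_zero)
  have e2 : (Real.pi ^ 2) ^ e * tau ^ i = z3 ^ i * (Real.pi ^ 2) ^ (e - i) := by
    obtain ⟨r, rfl⟩ : ∃ r, e = i + r := ⟨e - i, by omega⟩
    rw [tau, div_pow, Nat.add_sub_cancel_left, pow_add]
    field_simp
  rw [e2]
  exact h1

theorem exists_formal (P : ratioField[X]) : ∃ V : ℕ, ∃ y ∈ Zs V, y ≠ 0 ∧
    Formal (C y * X ^ V * phi P) := by
  obtain ⟨W, y, hy, hy0, h⟩ := exists_denom P
  refine ⟨W + 2 * P.natDegree, y * (Real.pi ^ 2) ^ P.natDegree,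
    mul_mem _ _ _ _ hy (pow_mem 2 _ pi_sq_mem _),
    mul_ne_zero hy0 (pow_ne_zero _ (pow_ne_zero _ Real.pi_ne_zero)), fun n => ?_⟩
  rw [mul_assoc, coeff_C_mul, coeff_X_pow_mul']
  split_ifs with hn
  · obtain ⟨i, rfl⟩ : ∃ i, n = W + 2 * P.natDegree + i := ⟨n - (W + 2 * P.natDegree), by omega⟩
    rw [Nat.add_sub_cancel_left, phi_coeff]
    by_cases hi : i ≤ P.natDegree
    · have h1 := mul_mem _ _ _ _ (h i) (tau_mem hi)
      have e1 : W + (2 * P.natDegree + i) = W + 2 * P.natDegree + i := by ring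
      rw [e1] at h1
      have e2 : y * (Real.pi ^ 2) ^ P.natDegree * ((P.coeff i : ℝ) * tau ^ i) =
          y * (P.coeff i : ℝ) * ((Real.pi ^ 2) ^ P.natDegree * tau ^ i) := by ring
      rw [e2]
      exact h1
    · rw [coeff_eq_zero_of_natDegree_lt (by omega)]
      simp
  · simp

theorem phi_eq_zero {P : ratioField[X]} (h : phi P = 0) : P = 0 := by
  ext n
  have h1 := phi_coeff P n
  rw [h, coeff_zero] at h1
  rcases mul_eq_zero.1 h1.symm with h2 | h2
  · simpa using h2
  · exact absurd h2 (pow_ne_zero _ tau_ne)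

theorem natDegree_phi (P : ratioField[X]) : (phi P).natDegree = P.natDegree := by
  change ((P.map ratioField.subtype).comp (C tau * X)).natDegree = _
  rw [natDegree_comp, natDegree_map, natDegree_C_mul_X _ tau_ne, mul_one]

theorem main : ∃ R : ℝ[X], Formal R ∧ R.eval 1 = 0 ∧
    (∀ G : ℝ[X], Formal G → G.eval 1 = 0 → ∃ V : ℕ, ∃ y ∈ Zs V, y ≠ 0 ∧
      ∃ H : ℝ[X], Formal H ∧ C y * X ^ V * G = R * H) ∧
    (R = 0 → ¬ IsIntegral ratioField tau) ∧
    (R ≠ 0 → IsIntegral ratioField tau ∧
      R.natDegree - R.natTrailingDegree = (minpoly ratioField tau).natDegree) := by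
  obtain ⟨V, y, hy, hy0, hf⟩ := exists_formal (minpoly ratioField tau)
  have hyC : (C y : ℝ[X]) ≠ 0 := C_ne_zero.2 hy0
  have hX : (X ^ V : ℝ[X]) ≠ 0 := pow_ne_zero V X_ne_zero
  refine ⟨_, hf, ?_, ?_, ?_, ?_⟩
  · rw [eval_mul, phi_eval, minpoly.aeval, mul_zero]
  · intro G hG h1
    obtain ⟨P, rfl⟩ := exists_phi hG
    rw [phi_eval] at h1
    obtain ⟨Q, hQ⟩ := minpoly.dvd ratioField tau h1
    obtain ⟨V', y', hy', hy0', hf'⟩ := exists_formal Q
    refine ⟨V + V', y * y', mul_mem _ _ _ _ hy hy', mul_ne_zero hy0 hy0', _, hf', ?_⟩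
    rw [hQ, C_mul, map_mul phi, pow_add]
    ring
  · intro h0 hint
    rcases mul_eq_zero.1 h0 with h1 | h1
    · exact mul_ne_zero hyC hX h1
    · exact minpoly.ne_zero hint (phi_eq_zero h1)
  · intro h0
    have h1 : phi (minpoly ratioField tau) ≠ 0 := fun h => h0 (by rw [h, mul_zero])
    have hint : IsIntegral ratioField tau := by
      by_contra hcon
      rw [minpoly.eq_zero hcon, map_zero] at h1
      exact h1 rfl
    refine ⟨hint, ?_⟩
    have h2 : (phi (minpoly ratioField tau)).natTrailingDegree = 0 := by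
      rw [natTrailingDegree_eq_zero]
      right
      rw [phi_coeff, pow_zero, mul_one]
      have h3 := minpoly.coeff_zero_ne_zero hint tau_ne
      exact fun h => h3 (Subtype.ext h)
    rw [natDegree_mul (mul_ne_zero hyC hX) h1, natTrailingDegree_mul (mul_ne_zero hyC hX) h1, h2,
      natDegree_mul hyC hX, natTrailingDegree_mul hyC hX, natDegree_C, natTrailingDegree_C,
      natDegree_X_pow, natTrailingDegree_X_pow, natDegree_phi]
    omega

/-- The field generated by all multiple zeta values, over the field of ratios. -/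
noncomputable def FF : IntermediateField ratioField ℝ :=
  IntermediateField.adjoin ratioField {z : ℝ | ∃ w, z ∈ Zs w}

theorem FF_eq : FF = IntermediateField.adjoin ratioField {tau} := by
  apply le_antisymm
  · rw [FF, IntermediateField.adjoin_le_iff]
    rintro z ⟨w, hz⟩
    have h1 := div_tau_mem hz
    have h2 : z = (⟨z / tau ^ w, h1⟩ : ratioField) • tau ^ w := by
      change z = z / tau ^ w * tau ^ w
      rw [div_mul_cancel₀ _ (pow_ne_zero _ tau_ne)]
    rw [h2]
    exact IntermediateField.smul_mem _ (_root_.pow_mem (IntermediateField.mem_adjoin_simple_self _ _) w)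
  · rw [IntermediateField.adjoin_le_iff, Set.singleton_subset_iff]
    exact div_mem (IntermediateField.subset_adjoin _ _ ⟨3, z3_mem⟩)
      (IntermediateField.subset_adjoin _ _ ⟨2, pi_sq_mem⟩)

theorem direct_iff_zero {R : ℝ[X]} (hR : Formal R) (h1 : R.eval 1 = 0)
    (hmain : ∀ G : ℝ[X], Formal G → G.eval 1 = 0 → ∃ V : ℕ, ∃ y ∈ Zs V, y ≠ 0 ∧
      ∃ H : ℝ[X], Formal H ∧ C y * X ^ V * G = R * H) :
    R = 0 ↔ ∀ p, Direct p := by
  constructor
  · rintro rfl p z hz hs j hj
    classical
    set G : ℝ[X] := ∑ j ∈ Finset.range (p + 1), monomial j (z j) with hG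
    have hc : ∀ n, G.coeff n = if n ∈ Finset.range (p + 1) then z n else 0 := by
      intro n
      rw [hG, finsetSum_coeff]
      simp only [coeff_monomial]
      rw [Finset.sum_ite_eq']
    have hF : Formal G := by
      intro n
      rw [hc]
      split_ifs with h
      · exact hz n (by rw [Finset.mem_range] at h; omega)
      · exact Submodule.zero_mem _
    have hev : G.eval 1 = 0 := by
      rw [hG, eval_finsetSum, ← hs]
      exact Finset.sum_congr rfl fun j _ => by simp
    obtain ⟨V, y, -, hy0, H, -, h⟩ := hmain G hF hev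
    rw [zero_mul] at h
    have hG0 : G = 0 := by
      rcases mul_eq_zero.1 h with h2 | h2
      · exfalso
        rcases mul_eq_zero.1 h2 with h3 | h3
        · exact hy0 (C_eq_zero.1 h3)
        · exact pow_ne_zero V X_ne_zero h3
      · exact h2
    have h4 := hc j
    rw [hG0, coeff_zero, if_pos (Finset.mem_range.2 (by omega))] at h4
    exact h4.symm
  · intro hd
    ext n
    rw [coeff_zero]
    by_cases hn : n ≤ R.natDegree
    · refine hd R.natDegree (fun j => R.coeff j) (fun j _ => hR j) ?_ n hn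
      rw [eval_eq_sum_range] at h1
      simpa using h1
    · exact coeff_eq_zero_of_natDegree_lt (by omega)

/-- A finite set of weights is direct. -/
def DirOn' (F : Finset ℕ) : Prop :=
  ∀ z : ℕ → ℝ, (∀ j ∈ F, z j ∈ Zs j) → (∑ j ∈ F, z j) = 0 → ∀ j ∈ F, z j = 0

theorem window {R : ℝ[X]} (hR0 : R ≠ 0)
    (hmain : ∀ G : ℝ[X], Formal G → G.eval 1 = 0 → ∃ V : ℕ, ∃ y ∈ Zs V, y ≠ 0 ∧
      ∃ H : ℝ[X], Formal H ∧ C y * X ^ V * G = R * H) (n : ℕ) :
    DirOn' (Finset.Ico n (n + (R.natDegree - R.natTrailingDegree))) := by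
  classical
  set d := R.natDegree - R.natTrailingDegree with hd
  intro z hz hs j hj
  set G : ℝ[X] := ∑ j ∈ Finset.Ico n (n + d), monomial j (z j) with hG
  have hc : ∀ m, G.coeff m = if m ∈ Finset.Ico n (n + d) then z m else 0 := by
    intro m
    rw [hG, finsetSum_coeff]
    simp only [coeff_monomial]
    rw [Finset.sum_ite_eq']
  have hF : Formal G := by
    intro m
    rw [hc]
    split_ifs with h
    · exact hz m h
    · exact Submodule.zero_mem _
  have hev : G.eval 1 = 0 := by
    rw [hG, eval_finsetSum, ← hs]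
    exact Finset.sum_congr rfl fun j _ => by simp
  obtain ⟨V, y, -, hy0, H, -, h⟩ := hmain G hF hev
  have hG0 : G = 0 := by
    by_contra hne
    have hy : (C y : ℝ[X]) ≠ 0 := C_ne_zero.2 hy0
    have hX : (X ^ V : ℝ[X]) ≠ 0 := pow_ne_zero V X_ne_zero
    have hL : C y * X ^ V * G ≠ 0 := mul_ne_zero (mul_ne_zero hy hX) hne
    have hH0 : H ≠ 0 := by
      rintro rfl
      rw [mul_zero] at h
      exact hL h
    have h1 := congrArg natDegree h
    have h2 := congrArg natTrailingDegree h
    rw [natDegree_mul (mul_ne_zero hy hX) hne, natDegree_mul hy hX, natDegree_C, natDegree_X_pow,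
      natDegree_mul hR0 hH0] at h1
    rw [natTrailingDegree_mul (mul_ne_zero hy hX) hne, natTrailingDegree_mul hy hX,
      natTrailingDegree_C, natTrailingDegree_X_pow, natTrailingDegree_mul hR0 hH0] at h2
    have h3 : G.natDegree ∈ Finset.Ico n (n + d) := by
      by_contra hcon
      have h4 := hc G.natDegree
      rw [if_neg hcon, coeff_natDegree] at h4
      exact hne (leadingCoeff_eq_zero.1 h4)
    have h5 : G.natTrailingDegree ∈ Finset.Ico n (n + d) := by
      by_contra hcon
      have h4 := hc G.natTrailingDegree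
      rw [if_neg hcon] at h4
      exact hne (trailingCoeff_eq_zero.1 h4)
    have h6 := H.natTrailingDegree_le_natDegree
    have h7 := R.natTrailingDegree_le_natDegree
    rw [Finset.mem_Ico] at h3 h5
    omega
  have h4 := hc j
  rw [hG0, coeff_zero, if_pos hj] at h4
  exact h4.symm

theorem not_window {R : ℝ[X]} (hR : Formal R) (h1 : R.eval 1 = 0) (hR0 : R ≠ 0) {n : ℕ}
    (hn : R.natTrailingDegree + 2 ≤ n) :
    ¬ DirOn' (Finset.Icc n (n + (R.natDegree - R.natTrailingDegree))) := by
  classical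
  set a := R.natTrailingDegree with ha
  set d := R.natDegree - a with hd
  have had : R.natDegree = a + d := by
    have := R.natTrailingDegree_le_natDegree
    omega
  obtain ⟨t, ht, ht0⟩ := Pool.Agent.Y123.MZ.exists_ne (m := n - a) (by omega)
  intro hdir
  have h2 : ∑ j ∈ Finset.Icc n (n + d), t * R.coeff (j - (n - a)) = 0 := by
    rw [← Finset.mul_sum]
    have h3 : ∑ j ∈ Finset.Icc n (n + d), R.coeff (j - (n - a)) = ∑ i ∈ Finset.Icc a (a + d), R.coeff i := by
      refine Finset.sum_nbij' (fun j => j - (n - a)) (fun i => i + (n - a)) ?_ ?_ ?_ ?_ ?_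
      · intro j hj
        rw [Finset.mem_Icc] at hj ⊢
        omega
      · intro j hj
        rw [Finset.mem_Icc] at hj ⊢
        omega
      · intro j hj
        rw [Finset.mem_Icc] at hj
        omega
      · intro j hj
        omega
      · intro j hj
        rfl
    have h4 : ∑ i ∈ Finset.Icc a (a + d), R.coeff i = ∑ i ∈ Finset.range (R.natDegree + 1), R.coeff i := by
      refine Finset.sum_subset (fun i hi => ?_) (fun i hi hi' => ?_)
      · rw [Finset.mem_Icc] at hi
        rw [Finset.mem_range]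
        omega
      · rw [Finset.mem_range] at hi
        rw [Finset.mem_Icc] at hi'
        exact coeff_eq_zero_of_lt_natTrailingDegree (by omega)
    have h5 : ∑ i ∈ Finset.range (R.natDegree + 1), R.coeff i = 0 := by
      rw [eval_eq_sum_range] at h1
      simpa using h1
    rw [h3, h4, h5, mul_zero]
  have h3 := hdir (fun j => t * R.coeff (j - (n - a))) (fun j hj => by
    rw [Finset.mem_Icc] at hj
    have h4 := mul_mem _ _ _ _ ht (hR (j - (n - a)))
    have e : n - a + (j - (n - a)) = j := by omega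
    rw [e] at h4
    exact h4) h2 (n + d) (Finset.mem_Icc.2 ⟨by omega, le_rfl⟩)
  have e : n + d - (n - a) = R.natDegree := by omega
  simp only [e] at h3
  rcases mul_eq_zero.1 h3 with h4 | h4
  · exact ht0 h4
  · exact hR0 (leadingCoeff_eq_zero.1 h4)

theorem DirOn'.mono {F G : Finset ℕ} (h : DirOn' F) (hG : G ⊆ F) : DirOn' G := by
  classical
  intro z hz hs j hj
  have h2 : ∑ j ∈ F, (if j ∈ G then z j else 0) = 0 := by
    rw [Finset.sum_ite_mem, Finset.inter_eq_right.2 hG, hs]
  have h1 := h (fun j => if j ∈ G then z j else 0) (fun i _ => by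
    split_ifs with h2
    · exact hz i h2
    · exact Submodule.zero_mem _) h2 j (hG hj)
  simpa [hj] using h1

theorem DirOn'.of_direct (h : ∀ p, Direct p) (F : Finset ℕ) : DirOn' F := by
  refine DirOn'.mono (F := Finset.range (F.sup id + 1)) ?_ ?_
  · intro z hz hs j hj
    exact h (F.sup id) z (fun i hi => hz i (Finset.mem_range.2 (by omega))) hs j
      (by rw [Finset.mem_range] at hj; omega)
  · intro i hi
    have := Finset.le_sup (f := id) hi
    rw [Finset.mem_range]
    simp only [id] at this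
    omega

theorem final : ∃ R : ℝ[X], Formal R ∧ R.eval 1 = 0 ∧
    (∀ G : ℝ[X], Formal G → G.eval 1 = 0 → ∃ V : ℕ, ∃ y ∈ Zs V, y ≠ 0 ∧
      ∃ H : ℝ[X], Formal H ∧ C y * X ^ V * G = R * H) ∧
    (R = 0 ↔ ∀ p, Direct p) ∧
    (R ≠ 0 → FiniteDimensional ratioField FF ∧
      R.natDegree - R.natTrailingDegree = Module.finrank ratioField FF) ∧
    (∀ m : ℕ, (m : Cardinal) ≤ Module.rank ratioField FF → ∀ n, DirOn' (Finset.Ico n (n + m))) ∧
    (∀ m : ℕ, ¬ (m : Cardinal) ≤ Module.rank ratioField FF → ∀ᶠ n in Filter.atTop,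
      ¬ DirOn' (Finset.Ico n (n + m))) := by
  obtain ⟨R, hF, h1, hmain, h0, hne⟩ := main
  have hdir := direct_iff_zero hF h1 hmain
  have hfin : R ≠ 0 → FiniteDimensional ratioField FF ∧
      R.natDegree - R.natTrailingDegree = Module.finrank ratioField FF := by
    intro hR0
    obtain ⟨hint, hd⟩ := hne hR0
    rw [FF_eq]
    exact ⟨IntermediateField.adjoin.finiteDimensional hint, by
      rw [IntermediateField.adjoin.finrank hint, hd]⟩
  refine ⟨R, hF, h1, hmain, hdir, hfin, ?_, ?_⟩
  · intro m hm n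
    by_cases hR0 : R = 0
    · exact DirOn'.of_direct (hdir.1 hR0) _
    · obtain ⟨hfd, hd⟩ := hfin hR0
      refine (window hR0 hmain n).mono ?_
      rw [hd]
      rw [← Module.finrank_eq_rank] at hm
      have hm' : m ≤ Module.finrank ratioField FF := by exact_mod_cast hm
      exact Finset.Ico_subset_Ico le_rfl (by omega)
  · intro m hm
    by_cases hR0 : R = 0
    · exfalso
      apply h0 hR0
      have h2 : Module.rank ratioField FF < Cardinal.aleph0 :=
        (not_le.1 hm).trans (Cardinal.natCast_lt_aleph0)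
      have h3 : FiniteDimensional ratioField FF := Module.rank_lt_aleph0_iff.1 h2
      have h4 : tau ∈ FF := by
        rw [FF_eq]
        exact IntermediateField.mem_adjoin_simple_self _ _
      have h5 : IsIntegral ratioField (⟨tau, h4⟩ : FF) := Algebra.IsIntegral.isIntegral _
      exact h5.map FF.val
    · obtain ⟨hfd, hd⟩ := hfin hR0
      rw [← Module.finrank_eq_rank] at hm
      have hm' : Module.finrank ratioField FF < m := by
        rw [not_le] at hm
        exact_mod_cast hm
      filter_upwards [Filter.eventually_ge_atTop (R.natTrailingDegree + 2)] with n hn hD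
      refine not_window hF h1 hR0 hn (hD.mono ?_)
      rw [hd]
      intro i hi
      rw [Finset.mem_Icc] at hi
      rw [Finset.mem_Ico]
      omega

end Pool.Agent.T2H64.ZL.One
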