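import Pool.Agent.T2H64.ZL.One

/-!
# The dimension of the sum over a window of weights
-/

set_option autoImplicit false

open Polynomial Module

namespace Pool.Agent.T2H64.ZL.Win

open Pool.Agent.H447R2.MZ hiding Direct Zs_one pi_pow_mem
open Pool.Agent.Y129.MZ Pool.Agent.Y123.MZ
open Pool.Agent.T2H35.MZ Pool.Agent.T2H64.ZL.One

/-- `Z n + ... + Z (n + m - 1)` -/
noncomputable abbrev W (n m : ℕ) : Submodule ℚ ℝ := ⨆ i ∈ Finset.range m, Zs (n + i)

noncomputable def Lm (n m : ℕ) : (∀ i : Fin m, Zs (n + i)) →ₗ[ℚ] ℝ :=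
  ∑ i : Fin m, (Zs (n + i)).subtype.comp (LinearMap.proj i)

theorem Lm_apply (n m : ℕ) (f : ∀ i : Fin m, Zs (n + i)) : Lm n m f = ∑ i : Fin m, (f i : ℝ) := by
  simp [Lm]

theorem range_Lm (n m : ℕ) : LinearMap.range (Lm n m) = W n m := by
  classical
  apply le_antisymm
  · rintro _ ⟨f, rfl⟩
    rw [Lm_apply]
    exact Submodule.sum_mem _ fun i _ =>
      (le_iSup₂_of_le (i : ℕ) (Finset.mem_range.2 i.2) le_rfl : Zs (n + i) ≤ W n m) (f i).2
  · refine iSup₂_le fun i hi x hx => ?_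
    rw [Finset.mem_range] at hi
    refine ⟨Pi.single (⟨i, hi⟩ : Fin m) ⟨x, hx⟩, ?_⟩
    rw [Lm_apply, Finset.sum_eq_single (⟨i, hi⟩ : Fin m)]
    · simp
    · intro b _ hb
      rw [Pi.single_eq_of_ne hb]
      rfl
    · intro h
      exact absurd (Finset.mem_univ _) h

instance finite_W (n m : ℕ) : FiniteDimensional ℚ (W n m) := by
  rw [← range_Lm]
  infer_instance

theorem W_le (n m : ℕ) : finrank ℚ (W n m) ≤ ∑ i ∈ Finset.range m, D (n + i) := by
  rw [← range_Lm]
  refine (LinearMap.finrank_range_le _).trans ?_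
  rw [Module.finrank_pi_fintype, ← Fin.sum_univ_eq_sum_range (fun i => D (n + i)) m]

theorem W_eq {n m : ℕ} (h : DirOn' (Finset.Ico n (n + m))) :
    finrank ℚ (W n m) = ∑ i ∈ Finset.range m, D (n + i) := by
  classical
  rw [← range_Lm, LinearMap.finrank_range_of_inj, Module.finrank_pi_fintype,
    ← Fin.sum_univ_eq_sum_range (fun i => D (n + i)) m]
  rw [injective_iff_map_eq_zero]
  intro f hf
  rw [Lm_apply] at hf
  let z : ℕ → ℝ := fun k => if hk : k - n < m then (f ⟨k - n, hk⟩ : ℝ) else 0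
  have hz : ∀ i : Fin m, z (n + i) = f i := by
    intro i
    have h1 : n + (i : ℕ) - n = i := by omega
    have h2 : n + (i : ℕ) - n < m := by rw [h1]; exact i.2
    simp only [z, dif_pos h2]
    have h4 : ∀ k : Fin m, k = i → (f k : ℝ) = f i := by
      rintro _ rfl
      rfl
    exact h4 _ (Fin.ext h1)
  have h1 := h z (fun j hj => by
    rw [Finset.mem_Ico] at hj
    obtain ⟨i, rfl⟩ : ∃ i : Fin m, j = n + i := ⟨⟨j - n, by omega⟩, by simp only; omega⟩
    rw [hz]
    exact (f i).2) (by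
    rw [Finset.sum_Ico_eq_sum_range, Nat.add_sub_cancel_left, ← Fin.sum_univ_eq_sum_range (fun i => z (n + i)) m,
      ← hf]
    exact Finset.sum_congr rfl fun i _ => hz i)
  funext i
  apply Subtype.ext
  rw [← hz i]
  exact h1 (n + i) (Finset.mem_Ico.2 ⟨by omega, by have := i.2; omega⟩)

theorem W_mono (n : ℕ) {m m' : ℕ} (h : m ≤ m') : W n m ≤ W n m' :=
  iSup₂_le fun i hi => le_iSup₂_of_le i (Finset.mem_range.2 (by rw [Finset.mem_range] at hi; omega)) le_rfl

theorem mul_W {c n m : ℕ} {t x : ℝ} (ht : t ∈ Zs c) (hx : x ∈ W n m) : t * x ∈ W (n + c) m := by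
  rw [← range_Lm] at hx
  obtain ⟨f, rfl⟩ := hx
  rw [Lm_apply, Finset.mul_sum]
  refine Submodule.sum_mem _ fun i _ => ?_
  have h1 := mul_mem _ _ _ _ ht (f i).2
  have e : c + (n + (i : ℕ)) = n + c + i := by ring
  rw [e] at h1
  exact (le_iSup₂_of_le (i : ℕ) (Finset.mem_range.2 i.2) le_rfl : Zs (n + c + i) ≤ W (n + c) m) h1

theorem key {d : ℕ} (hint : IsIntegral ratioField tau)
    (hd : (minpoly ratioField tau).natDegree = d) (j : ℕ) :
    ∃ c : ℕ, ∃ Y ∈ Zs c, Y ≠ 0 ∧ ∀ n, ∀ z ∈ Zs (n + j), Y * z ∈ W (n + c) d := by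
  have hm := minpoly.monic hint
  set P := (X ^ j : ratioField[X]) %ₘ minpoly ratioField tau with hP
  have hPe : aeval tau P = tau ^ j := by
    rw [hP, aeval_modByMonic_eq_self_of_root (minpoly.aeval _ _)]
    simp
  have hPd : P.natDegree < d := by
    rw [← hd]
    exact natDegree_modByMonic_lt _ hm (minpoly.ne_one _ _)
  obtain ⟨V, y, hy, hy0, h⟩ := exists_denom P
  have hpi : Real.pi ^ 2 ≠ 0 := pow_ne_zero _ Real.pi_ne_zero
  refine ⟨V + (3 * j + 2 * d), y * (z3 ^ j * (Real.pi ^ 2) ^ d),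
    mul_mem _ _ _ _ hy (mul_mem _ _ _ _ (pow_mem 3 _ z3_mem j) (pow_mem 2 _ pi_sq_mem d)),
    mul_ne_zero hy0 (mul_ne_zero (pow_ne_zero _ z3_pos.ne') (pow_ne_zero _ hpi)), fun n z hz => ?_⟩
  have hsum : tau ^ j = ∑ i ∈ Finset.range d, (P.coeff i : ℝ) * tau ^ i := by
    rw [← hPe, aeval_eq_sum_range' hPd]
    rfl
  have e1 : z3 ^ j = (Real.pi ^ 2) ^ j * tau ^ j := by
    rw [tau, div_pow]
    field_simp
  have e2 : y * (z3 ^ j * (Real.pi ^ 2) ^ d) * z = ∑ i ∈ Finset.range d,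
      (y * (P.coeff i : ℝ)) * ((z * (Real.pi ^ 2) ^ j) * ((Real.pi ^ 2) ^ d * tau ^ i)) := by
    have e3 : y * (z3 ^ j * (Real.pi ^ 2) ^ d) * z =
        (y * (z * (Real.pi ^ 2) ^ j) * (Real.pi ^ 2) ^ d) * tau ^ j := by
      rw [e1]
      ring
    rw [e3, hsum, Finset.mul_sum]
    exact Finset.sum_congr rfl fun i _ => by ring
  rw [e2]
  refine Submodule.sum_mem _ fun i hi => ?_
  have hi' := Finset.mem_range.1 hi
  have h1 := mul_mem _ _ _ _ (h i) (mul_mem _ _ _ _ (mul_mem _ _ _ _ hz (pow_mem 2 _ pi_sq_mem j))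
    (tau_mem hi'.le))
  have e : V + (n + j + 2 * j + (2 * d + i)) = n + (V + (3 * j + 2 * d)) + i := by ring
  rw [e] at h1
  exact (le_iSup₂_of_le i hi le_rfl : Zs (n + (V + (3 * j + 2 * d)) + i) ≤ W (n + (V + (3 * j + 2 * d))) d) h1

theorem keys {d : ℕ} (hint : IsIntegral ratioField tau)
    (hd : (minpoly ratioField tau).natDegree = d) (m : ℕ) :
    ∃ c : ℕ, ∃ Y ∈ Zs c, Y ≠ 0 ∧ ∀ n, ∀ j < m, ∀ z ∈ Zs (n + j), Y * z ∈ W (n + c) d := by
  induction m with
  | zero => exact ⟨0, 1, one_mem, one_ne_zero, fun n j hj => absurd hj (Nat.not_lt_zero _)⟩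
  | succ m ih =>
    obtain ⟨c, Y, hY, hY0, h⟩ := ih
    obtain ⟨c', Y', hY', hY0', h'⟩ := key hint hd m
    refine ⟨c + c', Y * Y', mul_mem _ _ _ _ hY hY', mul_ne_zero hY0 hY0', fun n j hj z hz => ?_⟩
    rcases Nat.lt_succ_iff_lt_or_eq.1 hj with hj | rfl
    · have h1 := mul_W hY' (h n j hj z hz)
      have e : Y * Y' * z = Y' * (Y * z) := by ring
      rw [e, ← add_assoc]
      exact h1
    · have h1 := mul_W hY (h' n z hz)
      have e : Y * Y' * z = Y * (Y' * z) := by ring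
      rw [e, add_comm c c', ← add_assoc]
      exact h1

theorem upper {d : ℕ} (hint : IsIntegral ratioField tau)
    (hd : (minpoly ratioField tau).natDegree = d) (m : ℕ) :
    ∃ c : ℕ, ∀ n, finrank ℚ (W n m) ≤ ∑ i ∈ Finset.range d, D (n + c + i) := by
  obtain ⟨c, Y, hY, hY0, h⟩ := keys hint hd m
  refine ⟨c, fun n => le_trans ?_ (W_le (n + c) d)⟩
  have hmap : ∀ x ∈ W n m, LinearMap.mulLeft ℚ Y x ∈ W (n + c) d := by
    intro x hx
    rw [← range_Lm] at hx
    obtain ⟨f, rfl⟩ := hx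
    rw [Lm_apply, map_sum]
    exact Submodule.sum_mem _ fun i _ => h n i i.2 _ (f i).2
  refine LinearMap.finrank_le_finrank_of_injective
    (f := (LinearMap.mulLeft ℚ Y).restrict hmap) ?_
  intro a b hab
  apply Subtype.ext
  have h1 : Y * (a : ℝ) = Y * (b : ℝ) := congrArg Subtype.val hab
  exact mul_left_cancel₀ hY0 h1

theorem final (m e : ℕ) (he : (e : Cardinal) = min (m : Cardinal) (Module.rank ratioField FF)) :
    ∃ c : ℕ, ∀ n, ∑ i ∈ Finset.range e, D (n + i) ≤ finrank ℚ (W n m) ∧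
      finrank ℚ (W n m) ≤ ∑ i ∈ Finset.range e, D (n + c + i) := by
  obtain ⟨R, hF, h1, hmain, hdir, hfin, hwin, hnot⟩ := One.final
  have hem : e ≤ m := by
    have h2 : (e : Cardinal) ≤ m := he.le.trans (min_le_left _ _)
    exact_mod_cast h2
  have her : (e : Cardinal) ≤ Module.rank ratioField FF := he.le.trans (min_le_right _ _)
  have hlow : ∀ n, ∑ i ∈ Finset.range e, D (n + i) ≤ finrank ℚ (W n m) := fun n => by
    rw [← W_eq (hwin e her n)]
    exact Submodule.finrank_mono (W_mono n hem)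
  rcases Nat.lt_or_ge e m with hlt | hge
  · have hr : Module.rank ratioField FF = (e : Cardinal) := by
      rcases min_choice (m : Cardinal) (Module.rank ratioField FF) with h2 | h2
      · rw [h2] at he
        have : e = m := by exact_mod_cast he
        omega
      · rw [h2] at he
        exact he.symm
    have hfd : FiniteDimensional ratioField FF :=
      Module.rank_lt_aleph0_iff.1 (by rw [hr]; exact Cardinal.natCast_lt_aleph0)
    have htau : tau ∈ FF := by
      rw [FF_eq]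
      exact IntermediateField.mem_adjoin_simple_self _ _
    have hint : IsIntegral ratioField tau :=
      (Algebra.IsIntegral.isIntegral (R := ratioField) (⟨tau, htau⟩ : FF)).map FF.val
    have hd : (minpoly ratioField tau).natDegree = e := by
      rw [← IntermediateField.adjoin.finrank hint, ← FF_eq]
      rw [← Module.finrank_eq_rank] at hr
      exact_mod_cast hr
    obtain ⟨c, hc⟩ := upper hint hd m
    exact ⟨c, fun n => ⟨hlow n, hc n⟩⟩
  · have : e = m := le_antisymm hem hge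
    subst this
    exact ⟨0, fun n => ⟨hlow n, by simpa using W_le n e⟩⟩

end Pool.Agent.T2H64.ZL.Win
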